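import Pool.Agent.Helper38.ND.Goals
import Pool.Agent.Helper46.PPS.NCHB

/-!
# Packet ND-N_BRK (MP_fc6b1e_nt): the systems of the labelled primes satisfy `Brun`
-/

namespace Pool.Agent.Helper79.ND

open NumberField Module IsDedekindDomain Pool.Agent.Helper77.PPS Pool.Agent.Helper88.RS
  Pool.Agent.Helper46.PPS

variable {F : Type} [Field F] [NumberField F]

/-- The norm is a prime or at least the square of the prime below. -/
theorem nv_cases (v : HeightOneSpectrum (𝓞 F)) : nv v = lp v ∨ lp v ^ 2 ≤ nv v := by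
  have := v.isPrime
  have := lp_liesOver v
  obtain ⟨f, hN⟩ : ∃ f : ℕ, Ideal.absNorm v.asIdeal = lp v ^ f :=
    ⟨_, Ideal.absNorm_eq_pow_inertiaDeg' v.asIdeal (lp_prime v)⟩
  have h2 := nv_two_le v
  unfold nv at h2 ⊢
  rw [hN] at h2 ⊢
  have hf : f ≠ 0 := by
    rintro rfl
    rw [pow_zero] at h2
    omega
  by_cases h1 : f = 1
  · left; rw [h1, pow_one]
  · right
    exact Nat.pow_le_pow_right (lp_prime v).pos (by omega)

/-- The sum over a set of primes is bounded by the sum over the primes below. -/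
theorem sum_le_below (T : Finset (HeightOneSpectrum (𝓞 F))) :
    ∑ v ∈ T, Real.log (nv v) ≤
      (finrank ℚ F : ℝ) * ∑ l ∈ T.image lp, Real.log (l : ℝ) := by
  classical
  have h1 : ∑ v ∈ T, Real.log (nv v)
      = ∑ p ∈ T.image lp, ∑ v ∈ T.filter (fun v => lp v = p), Real.log (nv v) :=
    (Finset.sum_fiberwise_of_maps_to (fun v hv => Finset.mem_image_of_mem lp hv) _).symm
  rw [h1, Finset.mul_sum]
  refine Finset.sum_le_sum fun p hp => ?_
  obtain ⟨w, _, rfl⟩ := Finset.mem_image.1 hp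
  exact sum_fibre _ _ (lp_prime w).ne_zero fun v hv => (Finset.mem_filter.1 hv).2

/-- The bound for the primes of a number field in a short interval. -/
theorem brun_field (C : ℝ) (_ : 0 < C) (hB : ∀ δ : ℝ, 0 < δ → δ ≤ 1 → ∃ Y₀ : ℝ, ∀ Y : ℝ,
    Y₀ ≤ Y → ∀ F : Finset ℕ, (∀ l ∈ F, l.Prime ∧ Y < l ∧ (l : ℝ) ≤ (1 + δ) * Y) →
    ∑ l ∈ F, Real.log l ≤ C * δ * Y) (δ : ℝ) (hδ : 0 < δ) (hδ1 : δ ≤ 1) :
    ∃ Y₀ : ℝ, ∀ Y : ℝ, Y₀ ≤ Y → ∀ T : Finset (HeightOneSpectrum (𝓞 F)),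
      (∀ v ∈ T, Y < nv v ∧ (nv v : ℝ) ≤ (1 + δ) * Y) →
      ∑ v ∈ T, Real.log (nv v) ≤ (finrank ℚ F : ℝ) * ((C + 1) * δ * Y) := by
  classical
  obtain ⟨Y₀, hY⟩ := hB δ hδ hδ1
  refine ⟨max Y₀ (8 / δ ^ 2), fun Y hY0 T hT => ?_⟩
  have hYa : Y₀ ≤ Y := (le_max_left _ _).trans hY0
  have hYb : 8 / δ ^ 2 ≤ Y := (le_max_right _ _).trans hY0
  have hYpos : 0 < Y := lt_of_lt_of_le (by positivity) hYb
  set T1 := T.filter fun v => nv v = Helper88.RS.lp v with hT1
  set T2 := T.filter fun v => ¬ nv v = Helper88.RS.lp v with hT2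
  have hsum : ∑ v ∈ T, Real.log (nv v) = ∑ v ∈ T1, Real.log (nv v) +
      ∑ v ∈ T2, Real.log (nv v) := (Finset.sum_filter_add_sum_filter_not T _ _).symm
  have h1 : ∑ l ∈ T1.image lp, Real.log (l : ℝ) ≤ C * δ * Y := by
    apply hY Y hYa
    intro l hl
    obtain ⟨v, hv, rfl⟩ := Finset.mem_image.1 hl
    rw [hT1, Finset.mem_filter] at hv
    have h2 := hT v hv.1
    rw [hv.2] at h2
    exact ⟨lp_prime v, h2⟩
  have h2 : ∑ l ∈ T2.image lp, Real.log (l : ℝ) ≤ δ * Y := by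
    have h3 : ∑ l ∈ T2.image lp, Real.log (l : ℝ) ≤ Chebyshev.theta (Real.sqrt (2 * Y)) := by
      rw [Chebyshev.theta_eq_sum_Icc]
      refine Finset.sum_le_sum_of_subset_of_nonneg ?_ ?_
      · intro p hp
        obtain ⟨w, hw, rfl⟩ := Finset.mem_image.1 hp
        rw [hT2, Finset.mem_filter] at hw
        rw [Finset.mem_filter, Finset.mem_Icc]
        refine ⟨⟨Nat.zero_le _, Nat.le_floor ?_⟩, lp_prime w⟩
        apply Real.le_sqrt_of_sq_le
        rcases nv_cases w with h4 | h4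
        · exact absurd h4 hw.2
        · have h5 : ((lp w : ℕ) : ℝ) ^ 2 ≤ (nv w : ℝ) := by exact_mod_cast h4
          have h6 := (hT w hw.1).2
          nlinarith
      · intro p hp _
        rw [Finset.mem_filter] at hp
        exact Real.log_nonneg (by exact_mod_cast hp.2.one_lt.le)
    refine h3.trans ((Chebyshev.theta_le_log4_mul_x (Real.sqrt_nonneg _)).trans ?_)
    have h7 : Real.log 4 ≤ 2 := by
      have h8 : Real.log 4 = 2 * Real.log 2 := by
        rw [show (4 : ℝ) = 2 ^ 2 by norm_num, Real.log_pow]; norm_num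
      have := Real.log_two_lt_d9
      linarith
    have h9 : Real.sqrt (2 * Y) ≤ δ * Y / 2 := by
      apply Real.sqrt_le_iff.2
      refine ⟨by positivity, ?_⟩
      have h10 : 8 ≤ Y * δ ^ 2 := by
        rwa [div_le_iff₀ (by positivity)] at hYb
      nlinarith
    have h11 := Real.sqrt_nonneg (2 * Y)
    nlinarith
  rw [hsum]
  have h3 := sum_le_below T1
  have h4 := sum_le_below T2
  have hd : (0 : ℝ) ≤ (finrank ℚ F : ℝ) := by positivity
  calc ∑ v ∈ T1, Real.log (nv v) + ∑ v ∈ T2, Real.log (nv v)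
      ≤ (finrank ℚ F : ℝ) * ∑ l ∈ T1.image lp, Real.log (l : ℝ) +
        (finrank ℚ F : ℝ) * ∑ l ∈ T2.image lp, Real.log (l : ℝ) := add_le_add h3 h4
    _ ≤ (finrank ℚ F : ℝ) * (C * δ * Y) + (finrank ℚ F : ℝ) * (δ * Y) :=
        add_le_add (mul_le_mul_of_nonneg_left h1 hd) (mul_le_mul_of_nonneg_left h2 hd)
    _ = (finrank ℚ F : ℝ) * ((C + 1) * δ * Y) := by ring

open Pool.Agent.Helper38.ND in
/-- **Packet ND-N_BRK.** -/
theorem n_brk : N_BRK := by
  classical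
  rintro ⟨C, hC, hB⟩ p _ K _ _
  refine ⟨(Fintype.card (ZMod p)ˣ : ℝ) * ((finrank ℚ K : ℝ) * (C + 1)), ?_⟩
  intro V B₀ k U Λ C' _ _ _ _ _ _ S hS δ hδ hδ1
  obtain ⟨Y₀, hY⟩ := brun_field (F := K) C hC hB δ hδ hδ1
  refine ⟨Y₀, fun Y hYY G hG => ?_⟩
  set T : Finset (HeightOneSpectrum (𝓞 K)) := G.image fun q => q.1.1 with hT
  have hN : ∀ q, (S.N q : ℝ) = nv q.1.1 := by
    intro q
    rw [hS q]
    rfl
  have h1 := hY Y hYY T (by
    intro v hv
    obtain ⟨q, hq, rfl⟩ := Finset.mem_image.1 hv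
    have h2 := hG q hq
    rw [hN q] at h2
    exact h2)
  have h3 : ∑ q ∈ G, Real.log (S.N q) =
      ∑ v ∈ T, ∑ q ∈ G.filter (fun q => q.1.1 = v), Real.log (S.N q) :=
    (Finset.sum_fiberwise_of_maps_to (fun q hq => Finset.mem_image_of_mem _ hq) _).symm
  have h4 : ∀ v ∈ T, ∑ q ∈ G.filter (fun q => q.1.1 = v), Real.log (S.N q) ≤
      (Fintype.card (ZMod p)ˣ : ℝ) * Real.log (nv v) := by
    intro v _
    have h5 : ∀ q ∈ G.filter (fun q => q.1.1 = v), Real.log (S.N q) = Real.log (nv v) := by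
      intro q hq
      rw [Finset.mem_filter] at hq
      rw [hN q, hq.2]
    rw [Finset.sum_congr rfl h5, Finset.sum_const, nsmul_eq_mul]
    have h6 : (G.filter (fun q => q.1.1 = v)).card ≤ Fintype.card (ZMod p)ˣ := by
      rw [← Finset.card_univ]
      refine Finset.card_le_card_of_injOn (fun q => q.1.2) (fun _ _ => Finset.mem_univ _) ?_
      intro q hq q' hq' h
      rw [Finset.mem_coe, Finset.mem_filter] at hq hq'
      exact Subtype.ext (Prod.ext (hq.2.trans hq'.2.symm) h)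
    have h7 : 0 ≤ Real.log (nv v : ℝ) := by
      apply Real.log_nonneg
      have := nv_two_le v
      exact_mod_cast (by omega : 1 ≤ nv v)
    exact mul_le_mul_of_nonneg_right (by exact_mod_cast h6) h7
  rw [h3]
  calc ∑ v ∈ T, ∑ q ∈ G.filter (fun q => q.1.1 = v), Real.log (S.N q)
      ≤ ∑ v ∈ T, (Fintype.card (ZMod p)ˣ : ℝ) * Real.log (nv v) := Finset.sum_le_sum h4
    _ = (Fintype.card (ZMod p)ˣ : ℝ) * ∑ v ∈ T, Real.log (nv v) := by rw [Finset.mul_sum]
    _ ≤ (Fintype.card (ZMod p)ˣ : ℝ) * ((finrank ℚ K : ℝ) * ((C + 1) * δ * Y)) :=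
        mul_le_mul_of_nonneg_left h1 (by positivity)
    _ = (Fintype.card (ZMod p)ˣ : ℝ) * ((finrank ℚ K : ℝ) * (C + 1)) * δ * Y := by ring

end Pool.Agent.Helper79.ND
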